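import Pool.Agent.Run7.h35.EX.Stm

/-!
# NS: left inverses of `d0` have large norm
-/

set_option autoImplicit false

open scoped BigOperators

namespace Run7.h232.EX

open Run7.h35.EX Finset Classical

noncomputable section

variable {V ι : Type} [Fintype V] [AddCommGroup V] [Fintype ι] [Nonempty ι]

/-- the sums of `r` steps (with zero) -/
def Rch (s : ι → V) : ℕ → Finset V
  | 0 => {0}
  | r + 1 => (univ : Finset (Option ι)).biUnion fun o => (Rch s r).image fun y => y + (o.elim 0 s)

lemma Rch_step (s : ι → V) (r : ℕ) (y : V) (i : ι) (h : y ∈ Rch s r) : y + s i ∈ Rch s (r + 1) :=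
  mem_biUnion.2 ⟨some i, mem_univ _, mem_image.2 ⟨y, h, rfl⟩⟩

lemma Rch_mono (s : ι → V) (r : ℕ) (y : V) (h : y ∈ Rch s r) : y ∈ Rch s (r + 1) :=
  mem_biUnion.2 ⟨none, mem_univ _, mem_image.2 ⟨y, h, add_zero y⟩⟩

lemma zero_mem (s : ι → V) (r : ℕ) : (0 : V) ∈ Rch s r := by
  induction r with
  | zero => exact mem_singleton_self 0
  | succ r ih => exact Rch_mono s r 0 ih

lemma Rch_card (s : ι → V) (r : ℕ) : (Rch s r).card ≤ (Fintype.card ι + 1) ^ r := by
  induction r with
  | zero => simp [Rch]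
  | succ r ih =>
    have h1 : (Rch s (r + 1)).card ≤ (univ : Finset (Option ι)).card * (Rch s r).card :=
      card_biUnion_le_card_mul _ _ _ (fun o _ => card_image_le)
    rw [card_univ, Fintype.card_option] at h1
    calc (Rch s (r + 1)).card ≤ (Fintype.card ι + 1) * (Rch s r).card := h1
      _ ≤ (Fintype.card ι + 1) * (Fintype.card ι + 1) ^ r := Nat.mul_le_mul_left _ ih
      _ = (Fintype.card ι + 1) ^ (r + 1) := by rw [pow_succ, mul_comm]

/-- the truncated distance from zero -/
def rho (s : ι → V) (ℓ : ℕ) (y : V) : ℝ := ∑ r ∈ range ℓ, if y ∈ Rch s r then (0 : ℝ) else 1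

lemma rho_step (s : ι → V) (ℓ : ℕ) (y : V) (i : ι) : rho s ℓ (y + s i) ≤ rho s ℓ y + 1 := by
  unfold rho
  cases ℓ with
  | zero => simp
  | succ ℓ =>
    rw [sum_range_succ' _ ℓ, sum_range_succ _ ℓ]
    have h1 : ∀ r ∈ range ℓ, (if y + s i ∈ Rch s (r + 1) then (0 : ℝ) else 1) ≤
        if y ∈ Rch s r then (0 : ℝ) else 1 := by
      intro r _
      by_cases h : y ∈ Rch s r
      · rw [if_pos h, if_pos (Rch_step s r y i h)]
      · rw [if_neg h]
        split_ifs <;> norm_num
    have h2 := sum_le_sum h1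
    have h3 : (if y + s i ∈ Rch s 0 then (0 : ℝ) else 1) ≤ 1 := by split_ifs <;> norm_num
    have h4 : (0 : ℝ) ≤ if y ∈ Rch s ℓ then (0 : ℝ) else 1 := by split_ifs <;> norm_num
    linarith

lemma rho_abs (s : ι → V) (hV : ∀ x : V, x + x = 0) (ℓ : ℕ) (y : V) (i : ι) :
    |rho s ℓ (y + s i) - rho s ℓ y| ≤ 1 := by
  have h1 := rho_step s ℓ y i
  have h2 := rho_step s ℓ (y + s i) i
  rw [add_assoc, hV, add_zero] at h2
  rw [abs_le]
  constructor <;> linarith

lemma rho_zero (s : ι → V) (ℓ : ℕ) : rho s ℓ (0 : V) = 0 := by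
  unfold rho
  refine sum_eq_zero fun r _ => ?_
  rw [if_pos (zero_mem s r)]

lemma card_pos' : (0 : ℝ) < Fintype.card V := by
  have : Nonempty V := ⟨0⟩
  exact_mod_cast Fintype.card_pos

lemma av_rho (s : ι → V) (ℓ : ℕ) (h : 2 * (Fintype.card ι + 1) ^ ℓ ≤ Fintype.card V) :
    (ℓ : ℝ) / 2 ≤ av (rho s ℓ) := by
  unfold av
  rw [le_div_iff₀ card_pos']
  have h1 : ∑ y, rho s ℓ y = ∑ r ∈ range ℓ, ((Fintype.card V : ℝ) - (Rch s r).card) := by
    unfold rho
    rw [sum_comm]
    refine sum_congr rfl fun r _ => ?_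
    have h2 : ∀ y : V, (if y ∈ Rch s r then (0 : ℝ) else 1) = 1 - if y ∈ Rch s r then (1 : ℝ) else 0 := by
      intro y
      split_ifs <;> norm_num
    rw [sum_congr rfl fun y _ => h2 y, sum_sub_distrib, sum_const, card_univ, nsmul_eq_mul, mul_one]
    congr 1
    rw [sum_ite_mem, univ_inter, sum_const, nsmul_eq_mul, mul_one]
  rw [h1]
  have h3 : ∀ r ∈ range ℓ, (Fintype.card V : ℝ) / 2 ≤ (Fintype.card V : ℝ) - (Rch s r).card := by
    intro r hr
    have h4 : (Rch s r).card ≤ (Fintype.card ι + 1) ^ ℓ :=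
      (Rch_card s r).trans (Nat.pow_le_pow_right (by omega) (mem_range.1 hr).le)
    have h5 : 2 * (Rch s r).card ≤ Fintype.card V := by omega
    have h6 : (2 : ℝ) * (Rch s r).card ≤ Fintype.card V := by exact_mod_cast h5
    linarith
  calc (ℓ : ℝ) / 2 * Fintype.card V = ∑ _r ∈ range ℓ, (Fintype.card V : ℝ) / 2 := by
        rw [sum_const, card_range, nsmul_eq_mul]
        ring
    _ ≤ _ := sum_le_sum h3

/-- the unit vectors -/
def E (x : V) (i : ι) : V → ι → ℝ := fun y k => if y = x then (if k = i then 1 else 0) else 0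

lemma decomp (a : V → ι → ℝ) : a = ∑ x, ∑ i, a x i • E x i := by
  funext y k
  rw [Finset.sum_apply, Finset.sum_apply]
  simp only [Finset.sum_apply, Pi.smul_apply, smul_eq_mul]
  rw [Finset.sum_eq_single y]
  · rw [Finset.sum_eq_single k]
    · simp [E]
    · intro i _ hi
      simp [E, hi.symm]
    · intro h
      exact absurd (mem_univ _) h
  · intro x _ hx
    refine sum_eq_zero fun i _ => ?_
    simp [E, hx.symm]
  · intro h
    exact absurd (mem_univ _) h

lemma nrm1_E (x : V) (i : ι) : nrm1 (E x i) = 1 / ((Fintype.card V : ℝ) * Fintype.card ι) := by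
  unfold nrm1 av
  have h1 : ∀ y : V, (∑ k, |E x i y k|) / (Fintype.card ι : ℝ) = if y = x then 1 / (Fintype.card ι : ℝ) else 0 := by
    intro y
    by_cases h : y = x
    · rw [if_pos h]
      congr 1
      rw [Finset.sum_eq_single i]
      · simp [E, h]
      · intro k _ hk
        simp [E, hk]
      · intro h
        exact absurd (mem_univ _) h
    · rw [if_neg h]
      have : ∑ k, |E x i y k| = 0 := sum_eq_zero fun k _ => by simp [E, h]
      rw [this, zero_div]
  rw [sum_congr rfl fun y _ => h1 y, sum_ite_eq' univ x, if_pos (mem_univ x)]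
  field_simp

theorem t_NS : S_NS := by
  intro V ι _ _ _ _ s ℓ hV hcard S hS B hB
  have hc := card_pos' (V := V)
  have hι : (0 : ℝ) < Fintype.card ι := by exact_mod_cast Fintype.card_pos
  refine (av_rho s ℓ hcard).trans ?_
  set A : ℝ := av (rho s ℓ) with hA
  -- pointwise
  have key : ∀ v : V, A ≤ ∑ x, ∑ i, |S (E x i) v| := by
    intro v
    have h1 : ∑ x, (rho s ℓ (x + v) - A) = 0 := by
      rw [sum_sub_distrib, sum_const, card_univ, nsmul_eq_mul]
      have h2 : ∑ x, rho s ℓ (x + v) = ∑ x, rho s ℓ x := Equiv.sum_comp (Equiv.addRight v) (rho s ℓ)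
      rw [h2, hA]
      unfold av
      field_simp
      ring
    have h2 := hS (fun x => rho s ℓ (x + v) - A) h1
    have h3 : S (d0 s (fun x => rho s ℓ (x + v) - A)) v = -A := by
      rw [h2]
      change rho s ℓ (v + v) - A = -A
      rw [hV, rho_zero, zero_sub]
    have h4 : S (d0 s (fun x => rho s ℓ (x + v) - A)) v =
        ∑ x, ∑ i, (d0 s (fun x => rho s ℓ (x + v) - A)) x i * S (E x i) v := by
      conv_lhs => rw [decomp (d0 s (fun x => rho s ℓ (x + v) - A))]
      rw [map_sum, Finset.sum_apply]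
      refine sum_congr rfl fun x _ => ?_
      rw [map_sum, Finset.sum_apply]
      refine sum_congr rfl fun i _ => ?_
      rw [map_smul, Pi.smul_apply, smul_eq_mul]
    have h5 : A = |∑ x, ∑ i, (d0 s (fun x => rho s ℓ (x + v) - A)) x i * S (E x i) v| := by
      rw [← h4, h3, abs_neg]
      refine (abs_of_nonneg ?_).symm
      refine le_trans ?_ (av_rho s ℓ hcard)
      positivity
    calc A = |∑ x, ∑ i, (d0 s (fun x => rho s ℓ (x + v) - A)) x i * S (E x i) v| := h5
      _ ≤ ∑ x, |∑ i, (d0 s (fun x => rho s ℓ (x + v) - A)) x i * S (E x i) v| := abs_sum_le_sum_abs _ _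
      _ ≤ ∑ x, ∑ i, |(d0 s (fun x => rho s ℓ (x + v) - A)) x i * S (E x i) v| :=
          sum_le_sum fun x _ => abs_sum_le_sum_abs _ _
      _ ≤ ∑ x, ∑ i, |S (E x i) v| := by
          refine sum_le_sum fun x _ => sum_le_sum fun i _ => ?_
          rw [abs_mul]
          have h6 : |d0 s (fun x => rho s ℓ (x + v) - A) x i| ≤ 1 := by
            change |(rho s ℓ (x + s i + v) - A) - (rho s ℓ (x + v) - A)| ≤ 1
            have h7 := rho_abs s hV ℓ (x + v) i
            rw [show x + s i + v = x + v + s i by abel]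
            rw [show rho s ℓ (x + v + s i) - A - (rho s ℓ (x + v) - A) = rho s ℓ (x + v + s i) - rho s ℓ (x + v) by
              ring]
            exact h7
          calc |d0 s (fun x => rho s ℓ (x + v) - A) x i| * |S (E x i) v| ≤ 1 * |S (E x i) v| :=
                mul_le_mul_of_nonneg_right h6 (abs_nonneg _)
            _ = |S (E x i) v| := one_mul _
  -- average over `v`
  have h1 : A * Fintype.card V ≤ ∑ v, ∑ x, ∑ i, |S (E x i) v| := by
    have := sum_le_sum (s := (univ : Finset V)) fun v _ => key v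
    rw [sum_const, card_univ, nsmul_eq_mul] at this
    linarith
  have h2 : ∑ v, ∑ x, ∑ i, |S (E x i) v| = ∑ x, ∑ i, ∑ v, |S (E x i) v| := by
    rw [sum_comm]
    refine sum_congr rfl fun x _ => ?_
    rw [sum_comm]
  have h3 : ∀ x i, ∑ v, |S (E x i) v| ≤ B * (1 / (Fintype.card ι : ℝ)) := by
    intro x i
    have h4 := hB (E x i)
    rw [nrm1_E] at h4
    unfold av at h4
    rw [div_le_iff₀ hc] at h4
    refine h4.trans (le_of_eq ?_)
    field_simp
  have h4 : ∑ x : V, ∑ i : ι, ∑ v, |S (E x i) v| ≤ ∑ _x : V, ∑ _i : ι, B * (1 / (Fintype.card ι : ℝ)) :=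
    sum_le_sum fun x _ => sum_le_sum fun i _ => h3 x i
  have h5 : ∑ _x : V, ∑ _i : ι, B * (1 / (Fintype.card ι : ℝ)) = Fintype.card V * B := by
    rw [sum_const, sum_const, card_univ, card_univ, nsmul_eq_mul, nsmul_eq_mul]
    field_simp
  rw [h2] at h1
  rw [h5] at h4
  have h6 : Fintype.card V * A ≤ Fintype.card V * B := by linarith
  exact le_of_mul_le_mul_left h6 hc

end

end Run7.h232.EX
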